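import Mathlib
import Pool.Agent.Helper82.BS.Main

/-!
# Band sums of knots with colourings by a common Alexander quandle have unknotting number `> 1`

Links are modelled by closed braid diagrams up to Markov moves; all definitions are in
`Pool/Agent/Helper82/BS/Defs.lean`.
-/

namespace Pool.Agent.Results.MP_e64f90_gt.CommonAlexanderRoot

open Pool.Agent.Helper82.BS

/-- **Lower bound for band sums.** For every field `F`, every `t ≠ 0` in `F` and every band sum `K`
of the knots `K₁` and `K₂`, the unknotting number of `K` is at least
`(dim Col(K₁) - 1) + (dim Col(K₂) - 1)`, where `Col` is the space of colourings by the Alexander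
quandle of `(F, t)`; and it is at least `2` if `K₁` and `K₂` both have a non-constant colouring. -/
theorem result {F : Type*} [Field F] (t : F) (ht : t ≠ 0) (K K₁ K₂ : Diagram)
    (h : IsBandSum K K₁ K₂) :
    (((Set.finrank F (Col t K₁) - 1) + (Set.finrank F (Col t K₂) - 1) : ℕ) : ℕ∞) ≤
        unknottingNumber K ∧
      (NonConstant t K₁ → NonConstant t K₂ → 1 < unknottingNumber K) :=
  bound t ht K K₁ K₂ h

end Pool.Agent.Results.MP_e64f90_gt.CommonAlexanderRoot
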