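import Pool.Agent.Helper20.BandSum.Assembly

/-!
# Band sums of knots with nontrivial determinants
-/

namespace Pool.Agent.Results.MP_e64f90_gt.DeterminantsNotOne

open Pool.Agent.Helper20.BandSum

/-- If `K` is a band sum of two knots which both have a nonconstant Fox colouring for some
modulus (that is, both determinants are not `1`), then the unknotting number of `K` is at
least `2`. -/
theorem result (K K₁ K₂ : Diagram) (hb : IsBandSum K K₁ K₂)
    (h₁ : ∃ n : ℕ, n ≠ 0 ∧ FoxColourable n K₁) (h₂ : ∃ n : ℕ, n ≠ 0 ∧ FoxColourable n K₂) :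
    2 ≤ unknottingNumber K :=
  main hb h₁ h₂

end Pool.Agent.Results.MP_e64f90_gt.DeterminantsNotOne
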