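import Pool.Agent.Helper24.TB.Main

/-!
# Band sums generated by three meridians
-/

namespace Pool.Agent.Results.MP_e64f90_gt.ThreeMeridians

open Pool.Agent.Helper20.BandSum Pool.Agent.Helper24.TB

/-- If `K` is a band sum of two knots which both have a nonconstant colouring by unit vectors of
the space under the rule of the half-turns, and the kei of `K` is generated by three elements
(for example, if `K` is a closed braid with three strands, or has bridge number at most three),
then the unknotting number of `K` is at least `2`. -/
theorem result (K K₁ K₂ : Diagram) (hb : IsBandSum K K₁ K₂)
    (h₁ : SphereColourable K₁) (h₂ : SphereColourable K₂)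
    (h : ∃ D, SameLink K D ∧ ThreeGenerated D) :
    2 ≤ unknottingNumber K :=
  mainTB hb h₁ h₂ h

end Pool.Agent.Results.MP_e64f90_gt.ThreeMeridians
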